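import Pool.Agent.Helper64.MH.Defs

/-!
MH, part LP : the cells of the vertices cover the cone up to a null set.
-/

set_option autoImplicit false

open MeasureTheory Set Filter Topology Matrix

namespace MH.Helper93

open MH

/-- first order optimality -/
lemma opt {τ : Type} [Fintype τ] (l μ h : τ → ℝ) (hl : ∀ t, 0 ≤ l t)
    (hμ : ∀ t, l t = 0 → 0 ≤ μ t)
    (hmax : ∀ ε : ℝ, (∀ t, 0 ≤ l t + ε * μ t) → ∑ t, (l t + ε * μ t) * h t ≤ ∑ t, l t * h t) :
    ∑ t, μ t * h t ≤ 0 := by
  have hev : ∀ᶠ ε in 𝓝[>] (0:ℝ), ∀ t, 0 ≤ l t + ε * μ t := by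
    rw [Filter.eventually_all]
    intro t
    by_cases ht : l t = 0
    · filter_upwards [self_mem_nhdsWithin] with ε hε
      rw [ht, zero_add]
      exact mul_nonneg (le_of_lt hε) (hμ t ht)
    · have hlt : 0 < l t := lt_of_le_of_ne (hl t) (Ne.symm ht)
      have hc : Tendsto (fun ε : ℝ => l t + ε * μ t) (𝓝[>] 0) (𝓝 (l t + 0 * μ t)) := by
        apply Tendsto.mono_left _ nhdsWithin_le_nhds
        exact (by fun_prop : Continuous fun ε : ℝ => l t + ε * μ t).tendsto 0
      rw [zero_mul, add_zero] at hc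
      filter_upwards [hc.eventually (lt_mem_nhds hlt)] with ε hε
      exact hε.le
  obtain ⟨ε, hε1, hε0⟩ := (hev.and self_mem_nhdsWithin).exists
  have hε0' : 0 < ε := hε0
  have h1 := hmax ε hε1
  have h2 : ∑ t, (l t + ε * μ t) * h t = ∑ t, l t * h t + ε * ∑ t, μ t * h t := by
    rw [Finset.mul_sum, ← Finset.sum_add_distrib]
    apply Finset.sum_congr rfl
    intro t _
    ring
  rw [h2] at h1
  have h3 : ε * ∑ t, μ t * h t ≤ 0 := by linarith
  by_contra hneg
  push Not at hneg
  have := mul_pos hε0' hneg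
  linarith

theorem LP : S_LP := by
  intro τ _ d v e h he _
  classical
  have hnull : volume (⋃ U ∈ {U : Set τ | Submodule.span ℝ (v '' U) ≠ ⊤},
      (Submodule.span ℝ (v '' U) : Set (Fin d → ℝ))) = 0 := by
    rw [measure_biUnion_null_iff (Set.toFinite _).countable]
    intro U hU
    exact Measure.addHaar_submodule volume _ hU
  refine measure_mono_null ?_ hnull
  rintro w ⟨hw, hnot⟩
  by_contra hwN
  apply hnot
  -- the set of representations
  set S : Set (τ → ℝ) := {l | (∀ t, 0 ≤ l t) ∧ w = ∑ t, l t • v t} with hS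
  have hSne : S.Nonempty := by
    obtain ⟨l, hl0, -, hl⟩ := hw
    exact ⟨l, hl0, hl⟩
  have hSsub : S ⊆ Icc 0 (fun t => (e ⬝ᵥ w) / (e ⬝ᵥ v t)) := by
    rintro l ⟨hl0, hl⟩
    refine ⟨hl0, ?_⟩
    intro t
    simp only
    rw [le_div_iff₀ (he t), hl, dotProduct_sum]
    have h1 : ∀ s, e ⬝ᵥ (l s • v s) = l s * (e ⬝ᵥ v s) := by
      intro s; rw [dotProduct_smul, smul_eq_mul]
    have h2 : ∀ s ∈ Finset.univ, 0 ≤ e ⬝ᵥ (l s • v s) := by
      intro s _
      rw [h1]; exact mul_nonneg (hl0 s) (he s).le
    have h3 := Finset.single_le_sum h2 (Finset.mem_univ t)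
    rw [h1] at h3
    exact h3
  have hSclosed : IsClosed S := by
    have h1 : IsClosed {l : τ → ℝ | ∀ t, 0 ≤ l t} := by
      rw [Set.ofPred_forall]
      exact isClosed_iInter fun t => isClosed_le continuous_const (continuous_apply t)
    have h2 : IsClosed {l : τ → ℝ | w = ∑ t, l t • v t} := by
      apply isClosed_eq continuous_const
      fun_prop
    exact h1.inter h2
  have hScomp : IsCompact S := isCompact_Icc.of_isClosed_subset hSclosed hSsub
  obtain ⟨l, ⟨hl0, hl⟩, hmax⟩ := hScomp.exists_isMaxOn hSne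
    (f := fun l : τ → ℝ => ∑ t, l t * h t) (by fun_prop)
  have hmax' : ∀ μ : τ → ℝ, ∑ t, μ t • v t = 0 → (∀ t, l t = 0 → 0 ≤ μ t) →
      ∑ t, μ t * h t ≤ 0 := by
    intro μ hμ hμ0
    apply opt l μ h hl0 hμ0
    intro ε hε
    have hmem : (fun t => l t + ε * μ t) ∈ S := by
      refine ⟨hε, ?_⟩
      have : ∑ t, (l t + ε * μ t) • v t = ∑ t, l t • v t + ε • ∑ t, μ t • v t := by
        rw [Finset.smul_sum, ← Finset.sum_add_distrib]
        apply Finset.sum_congr rfl
        intro t _
        rw [add_smul, mul_smul]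
      rw [this, hμ, smul_zero, add_zero]; exact hl
    exact hmax hmem
  set U : Set τ := {t | l t ≠ 0} with hU
  have hspan : Submodule.span ℝ (v '' U) = ⊤ := by
    by_contra hne
    apply hwN
    rw [Set.mem_iUnion₂]
    refine ⟨U, hne, ?_⟩
    rw [hl]
    apply Submodule.sum_mem
    intro t _
    by_cases ht : l t = 0
    · rw [ht, zero_smul]; exact Submodule.zero_mem _
    · exact Submodule.smul_mem _ _ (Submodule.subset_span ⟨t, ht, rfl⟩)
  -- linear algebra
  let A : (U → ℝ) →ₗ[ℝ] (Fin d → ℝ) := Fintype.linearCombination ℝ (fun t : U => v t)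
  let Hh : (U → ℝ) →ₗ[ℝ] ℝ := Fintype.linearCombination ℝ (fun t : U => h t)
  have hA : ∀ c, A c = ∑ t, c t • v t := fun c => by
    simp [A, Fintype.linearCombination_apply]
  have hH : ∀ c, Hh c = ∑ t, c t * h t := fun c => by
    simp [Hh, Fintype.linearCombination_apply]
  have hsurj : LinearMap.range A = ⊤ := by
    have : LinearMap.range A = Submodule.span ℝ (Set.range fun t : U => v t) :=
      Fintype.range_linearCombination ℝ _
    rw [this, ← hspan]
    congr 1
    ext x
    simp
  obtain ⟨B, hB⟩ := A.exists_rightInverse_of_surjective hsurj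
  have hB' : ∀ x, A (B x) = x := fun x => by
    have := congrArg (fun f => f x) hB
    simpa using this
  -- extension by zero
  let ext : (U → ℝ) → (τ → ℝ) := fun c t => if ht : l t ≠ 0 then c ⟨t, ht⟩ else 0
  have hext0 : ∀ c t, l t = 0 → ext c t = 0 := by
    intro c t ht
    simp only [ext]
    rw [dif_neg (by simpa using ht)]
  have hext1 : ∀ c (t : U), ext c t = c t := by
    intro c t
    simp only [ext]
    have : l (t : τ) ≠ 0 := t.2
    rw [dif_pos this]
  have hsumv : ∀ c, ∑ t, ext c t • v t = A c := by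
    intro c
    rw [hA]
    have h1 : ∑ t : τ, ext c t • v t = ∑ t ∈ Finset.univ.filter (fun t => t ∈ U), ext c t • v t := by
      rw [Finset.sum_filter]
      apply Finset.sum_congr rfl
      intro t _
      by_cases ht : t ∈ U
      · rw [if_pos ht]
      · rw [if_neg ht, hext0 c t (by simpa [hU] using ht), zero_smul]
    rw [h1]
    rw [Finset.sum_subtype (Finset.univ.filter (fun t => t ∈ U)) (p := fun t => t ∈ U)
      (by intro x; simp) (fun t => ext c t • v t)]
    apply Finset.sum_congr rfl
    intro t _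
    rw [hext1]
  have hsumh : ∀ c, ∑ t, ext c t * h t = Hh c := by
    intro c
    rw [hH]
    have h1 : ∑ t : τ, ext c t * h t = ∑ t ∈ Finset.univ.filter (fun t => t ∈ U), ext c t * h t := by
      rw [Finset.sum_filter]
      apply Finset.sum_congr rfl
      intro t _
      by_cases ht : t ∈ U
      · rw [if_pos ht]
      · rw [if_neg ht, hext0 c t (by simpa [hU] using ht), zero_mul]
    rw [h1]
    rw [Finset.sum_subtype (Finset.univ.filter (fun t => t ∈ U)) (p := fun t => t ∈ U)
      (by intro x; simp) (fun t => ext c t * h t)]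
    apply Finset.sum_congr rfl
    intro t _
    rw [hext1]
  have hker : ∀ c, A c = 0 → Hh c = 0 := by
    intro c hc
    apply le_antisymm
    · rw [← hsumh]
      apply hmax' _ _ (fun t ht => (hext0 c t ht).ge)
      rw [hsumv, hc]
    · have h1 := hmax' (ext (-c)) (by rw [hsumv, map_neg, hc, neg_zero])
        (fun t ht => (hext0 _ t ht).ge)
      rw [hsumh, map_neg] at h1
      linarith
  -- the functional
  let φ : (Fin d → ℝ) →ₗ[ℝ] ℝ := Hh.comp B
  have hφA : ∀ c, φ (A c) = Hh c := by
    intro c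
    have h1 : A (B (A c) - c) = 0 := by rw [map_sub, hB', sub_self]
    have h2 := hker _ h1
    rw [map_sub] at h2
    show Hh (B (A c)) = Hh c
    linarith
  let q : Fin d → ℝ := fun i => φ (Pi.single i 1)
  have hq : ∀ x, q ⬝ᵥ x = φ x := by
    intro x
    have h1 : x = ∑ i, x i • (Pi.single i 1 : Fin d → ℝ) := by
      ext j
      simp [Finset.sum_apply, Pi.single_apply]
    conv_rhs => rw [h1]
    rw [map_sum]
    simp only [map_smul, smul_eq_mul, dotProduct, q]
    apply Finset.sum_congr rfl
    intro i _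
    ring
  have htight : ∀ t, t ∈ U → q ⬝ᵥ v t = h t := by
    intro t ht
    rw [hq]
    have h1 : A (Pi.single ⟨t, ht⟩ 1) = v t := by
      rw [hA]
      simp [Pi.single_apply, Finset.sum_ite_eq]
    have h2 : Hh (Pi.single ⟨t, ht⟩ 1) = h t := by
      rw [hH]
      simp [Pi.single_apply, Finset.sum_ite_eq]
    rw [← h1, hφA, h2]
  refine ⟨q, ⟨?_, ?_⟩, ?_⟩
  · intro s
    by_cases hs : s ∈ U
    · exact (htight s hs).ge
    · have hs0 : l s = 0 := by simpa [hU] using hs
      rw [hq]
      have h1 := hmax' (fun t => (if t = s then 1 else 0) - ext (B (v s)) t) ?_ ?_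
      · have h2 : ∑ t, ((if t = s then (1:ℝ) else 0) - ext (B (v s)) t) * h t =
            h s - Hh (B (v s)) := by
          rw [← hsumh]
          simp only [sub_mul, Finset.sum_sub_distrib, ite_mul, one_mul, zero_mul,
            Finset.sum_ite_eq', Finset.mem_univ, if_true]
        rw [h2] at h1
        show h s ≤ Hh (B (v s))
        linarith
      · simp only [sub_smul, Finset.sum_sub_distrib, ite_smul, one_smul, zero_smul,
            Finset.sum_ite_eq', Finset.mem_univ, if_true]
        rw [hsumv, hB', sub_self]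
      · intro t ht
        rw [hext0 _ t ht, sub_zero]
        split_ifs <;> norm_num
  · apply le_antisymm le_top
    rw [← hspan]
    apply Submodule.span_mono
    apply Set.image_mono
    intro t ht
    exact htight t ht
  · refine ⟨l, hl0, ?_, hl⟩
    intro t ht
    by_contra hne
    exact ht (htight t hne)

end MH.Helper93
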