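import Pool.Agent.Helper64.MH.Defs

/-!
MH, part UPLW : lower bound of the weight of `upL A`.
-/

set_option autoImplicit false

open MeasureTheory Set Filter Topology Matrix
open scoped ENNReal Pointwise

namespace MH.Helper93

open MH

lemma lint_smul {ι : Type} [Fintype ι] (f : (ι → ℝ) → ℝ≥0∞) (hf : Measurable f) :
    ∫⁻ z, f z = ENNReal.ofReal ((5 / 8) ^ Fintype.card ι) * ∫⁻ u, f ((5 / 8 : ℝ) • u) := by
  have h := Measure.map_addHaar_smul (volume : Measure (ι → ℝ)) (r := 5 / 8) (by norm_num)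
  have h2 : ∫⁻ u, f ((5 / 8 : ℝ) • u) = ∫⁻ z, f z ∂(Measure.map ((5 / 8 : ℝ) • ·) volume) :=
    (lintegral_map hf (measurable_const_smul _)).symm
  rw [h2, h, lintegral_smul_measure, Module.finrank_fintype_fun_eq_card, smul_eq_mul, ← mul_assoc,
    ← ENNReal.ofReal_mul (by positivity), abs_of_pos (by positivity), mul_inv_cancel₀ (by positivity),
    ENNReal.ofReal_one, one_mul]

lemma meas_sigma {X : Type*} [TopologicalSpace X] [T2Space X] [MeasurableSpace X] [BorelSpace X]
    {A : Set X} (hA : IsSigmaCompact A) : MeasurableSet A := by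
  obtain ⟨K, hK, rfl⟩ := hA
  exact MeasurableSet.iUnion fun n => (hK n).measurableSet

lemma meas_upL {I J : Type} [Fintype I] [Fintype J] (A : Set ((I → ℝ) × (J → ℝ)))
    (hA : IsSigmaCompact A) : MeasurableSet (upL A) := by
  obtain ⟨K, hK, rfl⟩ := hA
  set C : Set ((I → ℝ) × (J → ℝ)) := {z | (∀ i, 0 ≤ z.1 i) ∧ ∀ j, z.2 j = 0} with hC
  have hCc : IsClosed C := by
    have h1 : C = (⋂ i, {z : (I → ℝ) × (J → ℝ) | 0 ≤ z.1 i}) ∩ ⋂ j, {z | z.2 j = 0} := by
      ext z; simp [hC]
    rw [h1]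
    refine (isClosed_iInter fun i => isClosed_le continuous_const (by fun_prop)).inter
      (isClosed_iInter fun j => isClosed_eq (by fun_prop) continuous_const)
  have heq : upL (⋃ n, K n) = ⋃ n, ((fun p : (I → ℝ) × (J → ℝ) => (5 / 8 : ℝ) • p) '' K n + C) := by
    ext z
    simp only [upL, mem_setOf_eq, mem_iUnion, Set.mem_add, Set.mem_image]
    constructor
    · rintro ⟨p, ⟨n, hn⟩, h1, h2⟩
      refine ⟨n, (5 / 8 : ℝ) • p, ⟨p, hn, rfl⟩, z - (5 / 8 : ℝ) • p, ⟨?_, ?_⟩, by abel⟩
      · intro i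
        simp only [Prod.fst_sub, Prod.smul_fst, Pi.sub_apply, Pi.smul_apply, smul_eq_mul]
        linarith [h1 i]
      · intro j
        simp only [Prod.snd_sub, Prod.smul_snd, Pi.sub_apply, Pi.smul_apply, smul_eq_mul]
        linarith [h2 j]
    · rintro ⟨n, _, ⟨p, hn, rfl⟩, y, ⟨h1, h2⟩, rfl⟩
      refine ⟨p, ⟨n, hn⟩, ?_, ?_⟩
      · intro i
        simp only [Prod.fst_add, Prod.smul_fst, Pi.add_apply, Pi.smul_apply, smul_eq_mul]
        linarith [h1 i]
      · intro j
        simp only [Prod.snd_add, Prod.smul_snd, Pi.add_apply, Pi.smul_apply, smul_eq_mul]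
        rw [h2 j, add_zero]
  rw [heq]
  refine MeasurableSet.iUnion fun n => IsClosed.measurableSet ?_
  exact IsClosed.add_left_of_isCompact hCc ((hK n).image (continuous_const_smul _))

theorem UPLW (hUPK : S_UPK) : S_UPLW := by
  intro I J _ _ A hA
  have hAm : MeasurableSet A := meas_sigma hA
  have hUm : MeasurableSet (upL A) := meas_upL A hA
  set g : (I → ℝ) × (J → ℝ) → ℝ≥0∞ := fun z =>
    ENNReal.ofReal (Real.exp (-(∑ i, z.1 i + ∑ j, z.2 j))) with hg
  have hgm : Measurable g := by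
    apply Measurable.ennreal_ofReal
    apply Real.continuous_exp.measurable.comp
    fun_prop
  -- step 1 : Fubini and change of variables
  have hF : Measurable (fun z => (upL A).indicator g z) := hgm.indicator hUm
  have e1 : w (upL A) = ENNReal.ofReal ((5 / 8) ^ Fintype.card J) *
      ∫⁻ u : J → ℝ, ∫⁻ x : I → ℝ, (upL A).indicator g (x, (5 / 8 : ℝ) • u) := by
    unfold w
    rw [← lintegral_indicator hUm]
    rw [show (volume : Measure ((I → ℝ) × (J → ℝ))) = volume.prod volume from rfl,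
      lintegral_prod_symm' _ hF]
    exact lint_smul (fun y : J → ℝ => ∫⁻ x : I → ℝ, (upL A).indicator g (x, y))
      (Measurable.lintegral_prod_left' hF)
  rw [e1, ENNReal.ofReal_mul (by positivity), mul_assoc]
  refine mul_le_mul_right ?_ _
  rw [← lintegral_const_mul']
  swap
  · exact ENNReal.ofReal_ne_top
  refine lintegral_mono fun u => ?_
  -- step 2 : the section
  set S : Set (I → ℝ) := {z | (z, (5 / 8 : ℝ) • u) ∈ upL A} with hS
  have hSm : MeasurableSet S := hUm.preimage (by fun_prop : Measurable fun z : I → ℝ =>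
    (z, (5 / 8 : ℝ) • u))
  have hSup : ∀ x ∈ S, ∀ y, x ≤ y → y ∈ S := by
    rintro x ⟨p, hp, h1, h2⟩ y hxy
    exact ⟨p, hp, fun i => (h1 i).trans (hxy i), h2⟩
  have hSA : ∀ x, (x, u) ∈ A → (5 / 8 : ℝ) • x ∈ S := by
    intro x hx
    refine ⟨(x, u), hx, fun i => ?_, fun j => ?_⟩
    · simp
    · simp
  have hK := hUPK I S hSm hSup
  set G := ∫⁻ x in S, ENNReal.ofReal (Real.exp (-(∑ i, x i))) with hG
  set c : ℝ≥0∞ := ENNReal.ofReal (Real.exp (-(5 / 8 * ∑ j, u j))) with hc
  -- right hand side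
  have e2 : ∫⁻ x : I → ℝ, (upL A).indicator g (x, (5 / 8 : ℝ) • u) = c * G := by
    rw [hG, ← lintegral_indicator hSm, ← lintegral_const_mul]
    · apply lintegral_congr
      intro x
      by_cases hx : x ∈ S
      · have hx' : (x, (5 / 8 : ℝ) • u) ∈ upL A := hx
        rw [indicator_of_mem hx', indicator_of_mem hx, hc, hg, ← ENNReal.ofReal_mul (by positivity),
          ← Real.exp_add]
        simp only [Pi.smul_apply, smul_eq_mul, ← Finset.mul_sum]
        ring_nf
      · have hx' : (x, (5 / 8 : ℝ) • u) ∉ upL A := hx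
        rw [indicator_of_notMem hx', indicator_of_notMem hx, mul_zero]
    · apply Measurable.indicator _ hSm
      apply Measurable.ennreal_ofReal
      apply Real.continuous_exp.measurable.comp
      fun_prop
  -- left hand side
  set Q := ∫⁻ x : I → ℝ, {x | (x, u) ∈ A}.indicator
    (fun x => ENNReal.ofReal (Real.exp (-(5 / 2 * ∑ i, x i)))) x with hQ
  have hAu : MeasurableSet {x : I → ℝ | (x, u) ∈ A} :=
    hAm.preimage (by fun_prop : Measurable fun x : I → ℝ => (x, u))
  have e3 : ∫⁻ x : I → ℝ, A.indicator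
      (fun z => ENNReal.ofReal (Real.exp (-(5 / 2 * (∑ i, z.1 i + ∑ j, z.2 j))))) (x, u) =
      c ^ 4 * Q := by
    rw [hQ, ← lintegral_const_mul]
    · apply lintegral_congr
      intro x
      by_cases hx : (x, u) ∈ A
      · have hx' : x ∈ {x : I → ℝ | (x, u) ∈ A} := hx
        rw [indicator_of_mem hx, indicator_of_mem hx', hc, ← ENNReal.ofReal_pow (by positivity),
          ← ENNReal.ofReal_mul (by positivity), ← Real.exp_nat_mul, ← Real.exp_add]
        congr 2
        push_cast
        ring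
      · have hx' : x ∉ {x : I → ℝ | (x, u) ∈ A} := hx
        rw [indicator_of_notMem hx, indicator_of_notMem hx', mul_zero]
    · apply Measurable.indicator _ hAu
      apply Measurable.ennreal_ofReal
      apply Real.continuous_exp.measurable.comp
      fun_prop
  -- comparison of the inner integrals
  have e4 : ENNReal.ofReal ((5 / 2) ^ Fintype.card I) * Q ≤ G ^ 4 := by
    refine le_trans ?_ hK
    have hm4 : Measurable (fun x : I → ℝ => S.indicator
        (fun x => ENNReal.ofReal (Real.exp (-(4 * ∑ i, x i)))) x) := by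
      apply Measurable.indicator _ hSm
      apply Measurable.ennreal_ofReal
      apply Real.continuous_exp.measurable.comp
      fun_prop
    rw [← lintegral_indicator hSm, lint_smul _ hm4, ← mul_assoc]
    have h4 : (4 : ℝ≥0∞) ^ Fintype.card I * ENNReal.ofReal ((5 / 8) ^ Fintype.card I) =
        ENNReal.ofReal ((5 / 2) ^ Fintype.card I) := by
      rw [show (4 : ℝ≥0∞) = ENNReal.ofReal 4 by simp, ← ENNReal.ofReal_pow (by norm_num),
        ← ENNReal.ofReal_mul (by positivity), ← mul_pow]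
      norm_num
    rw [h4]
    refine mul_le_mul_right ?_ _
    refine lintegral_mono fun x => ?_
    by_cases hx : (x, u) ∈ A
    · have hx' : x ∈ {x : I → ℝ | (x, u) ∈ A} := hx
      rw [indicator_of_mem hx', indicator_of_mem (hSA x hx)]
      apply le_of_eq
      congr 2
      simp only [Pi.smul_apply, smul_eq_mul, ← Finset.mul_sum]
      ring
    · have hx' : x ∉ {x : I → ℝ | (x, u) ∈ A} := hx
      rw [indicator_of_notMem hx']
      exact zero_le
  show ENNReal.ofReal ((5 / 2) ^ ((Fintype.card I : ℝ) / 4)) * _ ≤ _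
  rw [e2, e3, ENNReal.mul_rpow_of_nonneg _ _ (by norm_num : (0:ℝ) ≤ 1 / 4)]
  have h5 : (c ^ 4) ^ (1 / 4 : ℝ) = c := by
    rw [← ENNReal.rpow_natCast, ← ENNReal.rpow_mul]
    norm_num
  rw [h5]
  have h6 : ENNReal.ofReal ((5 / 2) ^ ((Fintype.card I : ℝ) / 4)) * (c * Q ^ (1 / 4 : ℝ)) =
      c * (ENNReal.ofReal ((5 / 2) ^ Fintype.card I) * Q) ^ (1 / 4 : ℝ) := by
    rw [ENNReal.mul_rpow_of_nonneg _ _ (by norm_num : (0:ℝ) ≤ 1 / 4),
      ENNReal.ofReal_rpow_of_pos (by positivity), ← Real.rpow_natCast, ← Real.rpow_mul (by norm_num)]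
    have : (Fintype.card I : ℝ) * (1 / 4) = (Fintype.card I : ℝ) / 4 := by ring
    rw [this]
    ring
  rw [h6]
  refine mul_le_mul_right ?_ _
  calc (ENNReal.ofReal ((5 / 2) ^ Fintype.card I) * Q) ^ (1 / 4 : ℝ) ≤ (G ^ 4) ^ (1 / 4 : ℝ) :=
        ENNReal.rpow_le_rpow e4 (by norm_num)
    _ = G := by
        rw [← ENNReal.rpow_natCast, ← ENNReal.rpow_mul]
        norm_num

end MH.Helper93
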